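import Pool.Agent.H16.ORB.W

/-! Board `orb`, row `FAC` (MP_5182ad_lc, oracle barrier): the facts of a world. -/

open Polynomial Finset

namespace Pool.ORB

namespace FAC76

theorem mem_fac (EE : Finset Ad) (ω' : Wo) (f : Fct {e // e ∈ EE} (List Bool)) :
    f ∈ fac EE ω' ↔ ω' f.1.1 = some (f.2.1, f.2.2) := by
  classical
  unfold fac
  rw [Finset.mem_biUnion]
  constructor
  · rintro ⟨e, -, he⟩
    cases h : ω' e.1 with
    | none =>
      rw [h] at he
      simp at he
    | some wb =>
      obtain ⟨w, b⟩ := wb
      rw [h] at he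
      simp only [Finset.mem_singleton] at he
      subst he
      exact h
  · intro h
    refine ⟨f.1, Finset.mem_univ _, ?_⟩
    rw [h]
    simp

theorem ans_fac (EE : Finset Ad) (ω' : Wo) (e : {e // e ∈ EE}) (w : List Bool) (b : Bool) :
    ans (fac EE ω') e w = some b ↔ ω' e.1 = some (w, b) := by
  classical
  have m1 := mem_fac EE ω' (e, w, true)
  have m2 := mem_fac EE ω' (e, w, false)
  unfold ans
  by_cases h1 : (e, w, true) ∈ fac EE ω'
  · rw [if_pos h1, m1.1 h1]
    constructor
    · intro h
      rw [Option.some_inj] at h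
      rw [h]
    · intro h
      rw [Option.some_inj, Prod.mk.injEq] at h
      exact congrArg some h.2
  · rw [if_neg h1]
    by_cases h2 : (e, w, false) ∈ fac EE ω'
    · rw [if_pos h2, m2.1 h2]
      constructor
      · intro h
        rw [Option.some_inj] at h
        rw [h]
      · intro h
        rw [Option.some_inj, Prod.mk.injEq] at h
        exact congrArg some h.2
    · rw [if_neg h2]
      constructor
      · intro h
        exact absurd h (by simp)
      · intro h
        cases b
        · exact absurd (m2.2 h) h2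
        · exact absurd (m1.2 h) h1

end FAC76

open FAC76 in
theorem fac_thm (hS : STRStmt) : FACStmt := by
  classical
  refine ⟨mem_fac, ?_, ans_fac, ?_⟩
  · intro EE ω' f hf g hg he
    rw [mem_fac] at hf hg
    rw [he, hg, Option.some_inj, Prod.mk.injEq] at hf
    exact Prod.ext he (Prod.ext hf.1.symm hf.2.symm)
  · intro en ω n τ EE ω' hE s hs
    obtain ⟨hleg, hagr, hdf⟩ := hE
    constructor
    · rintro ⟨e, w, b, hw, rfl, h⟩
      have hl : lev e ≤ τ := by
        rw [← hS.2.2.1 e w b hw]
        exact hs
      refine ⟨e, w, b, ?_, hw, rfl⟩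
      rcases h with ⟨he, h⟩ | ⟨he, hn, h⟩ | ⟨he, hn, h⟩
      · exact (ans_fac EE ω' ⟨e, he⟩ w b).1 h
      · rw [← hagr e hn]
        exact h
      · rw [hdf e he hn hl]
        exact h
    · rintro ⟨e, w, b, h, hw, rfl⟩
      have hl : lev e ≤ τ := by
        rw [← hS.2.2.1 e w b hw]
        exact hs
      refine ⟨e, w, b, hw, rfl, ?_⟩
      by_cases he : e ∈ EE
      · exact Or.inl ⟨he, (ans_fac EE ω' ⟨e, he⟩ w b).2 h⟩
      · rcases Nat.lt_or_ge n (lev e) with hn | hn
        · refine Or.inr (Or.inr ⟨he, hn, ?_⟩)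
          rw [← hdf e he hn hl]
          exact h
        · refine Or.inr (Or.inl ⟨he, hn, ?_⟩)
          rw [hagr e hn]
          exact h

end Pool.ORB
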