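import Pool.Agent.H16.ORB.W

/-! Board `orb`, row `NDL` (MP_5182ad_lc, oracle barrier): the needle sets. -/

open Polynomial Finset

namespace Pool.ORB

namespace NDL76

theorem mem_ndl (k : ℕ) (EE : Finset Ad) (e : {e // e ∈ EE}) (x : List.Vector Bool k)
    (w : List Bool) : w ∈ ndl k EE e x ↔ w.length = e.1.2.length ∧ w.take k = x.1 := by
  classical
  unfold ndl
  rw [Finset.mem_filter, Finset.mem_image]
  constructor
  · rintro ⟨⟨v, -, rfl⟩, h⟩
    exact ⟨v.2, h⟩
  · rintro ⟨h1, h2⟩
    exact ⟨⟨⟨w, h1⟩, Finset.mem_univ _, rfl⟩, h2⟩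

end NDL76

open NDL76 in
theorem ndl_thm : NDLStmt := by
  classical
  intro EE κ hE
  refine ⟨?_, ?_, ?_⟩
  · intro e x y hxy
    rw [Finset.disjoint_left]
    intro w hw hw'
    rw [mem_ndl] at hw hw'
    exact hxy (Subtype.ext (hw.2.symm.trans hw'.2))
  · intro e x
    have he : 6 * κ ≤ e.1.2.length := hE e.1 e.2
    have h1 : ((univ : Finset (List.Vector Bool (e.1.2.length - 4 * κ))).image
        (fun v => x.1 ++ v.1)) ⊆ ndl (4 * κ) EE e x := by
      intro w hw
      obtain ⟨v, -, rfl⟩ := Finset.mem_image.1 hw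
      rw [mem_ndl]
      have hx : x.1.length = 4 * κ := x.2
      have hv : v.1.length = e.1.2.length - 4 * κ := v.2
      constructor
      · rw [List.length_append, hx, hv]
        omega
      · exact List.take_left' hx
    have h2 := Finset.card_le_card h1
    rw [Finset.card_image_of_injective _ (by
      intro v v' h
      exact Subtype.ext (List.append_cancel_left h)), Finset.card_univ, card_vector,
      Fintype.card_bool] at h2
    refine le_trans ?_ h2
    rw [← pow_mul]
    exact Nat.pow_le_pow_right (by norm_num) (by omega)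
  · intro e x w hw
    exact ((mem_ndl _ _ _ _ _).1 hw).1

end Pool.ORB
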