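import Pool.Agent.H16.ORB.C

/-! Board `orb`, row `PHI` (MP_5182ad_lc, oracle barrier): the main step. -/

open Classical Finset

namespace Pool.ORB

namespace PHI76

theorem fn_mono {E Nd : Type} {κ κ' : FS E Nd} (h : κ ⊆ κ') (hf : Fn κ') : Fn κ :=
  fun f hf1 g hg he => hf f (h hf1) g (h hg) he

section
variable {E Nd Sg W : Type} [Fintype E] [Fintype W] [Fintype Sg]

/-- the real compatible leaves of side `σ` -/
noncomputable def Rl (D : Dat E Nd Sg W) (a : E → W) (s : St E Nd Sg) (σ : Bool) :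
    Finset (Lf E Nd Sg) :=
  (s.F σ).filter (fun l => Val D.V a l.2 ∧ Fn (s.ρ ∪ l.2))

/-- keep weight -/
noncomputable def fi (D : Dat E Nd Sg W) (l : Lf E Nd Sg) : ℝ :=
  (1 / (8 * (D.p : ℝ))) ^ l.2.card

/-- hit -/
def G (D : Dat E Nd Sg W) (s : St E Nd Sg) (σ : Bool) (y x : Lf E Nd Sg) : Prop :=
  ¬ Fn ((s.ρ ∪ y.2) ∪ x.2) ∨ D.chal σ x.1 y.1 (ans ((s.ρ ∪ y.2) ∪ x.2)) = true

theorem p_pos (D : Dat E Nd Sg W) : (0 : ℝ) < D.p := by
  have := D.hp
  exact_mod_cast this

theorem fi_pos (D : Dat E Nd Sg W) (l : Lf E Nd Sg) : 0 < fi D l := by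
  unfold fi
  have := p_pos D
  positivity

theorem phi_eq (D : Dat E Nd Sg W) (a : E → W) (s : St E Nd Sg) (σ : Bool) :
    D.Phi a s σ = ∑ l ∈ Rl D a s σ, fi D l := rfl

theorem hit_or (D : Dat E Nd Sg W) (s : St E Nd Sg) (x y : Lf E Nd Sg) :
    G D s true y x ∨ G D s false x y := by
  have he : (s.ρ ∪ y.2) ∪ x.2 = (s.ρ ∪ x.2) ∪ y.2 := by
    rw [Finset.union_assoc, Finset.union_assoc, Finset.union_comm y.2 x.2]
  unfold G
  rw [he]
  by_cases hF : Fn ((s.ρ ∪ x.2) ∪ y.2)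
  · cases hr : D.R x.1 y.1 (ans ((s.ρ ∪ x.2) ∪ y.2))
    · left; right
      unfold Dat.chal
      rw [if_pos rfl, hr]
      rfl
    · right; right
      unfold Dat.chal
      rw [if_neg Bool.false_ne_true, hr]
  · exact Or.inl (Or.inl hF)

/-- the step for one side -/
theorem one_side (hK : KIDStmt) (D : Dat E Nd Sg W) (a : E → W) (s : St E Nd Sg) (σ : Bool)
    (l : Lf E Nd Sg) (hl : l ∈ Rl D a s (!σ))
    (hh : D.Phi a s σ / 2 ≤ ∑ x ∈ (Rl D a s σ).filter (fun x => G D s σ l x), fi D x) :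
    l ∈ s.F (!σ) ∧ Val D.V a l.2 ∧ Fn (s.ρ ∪ l.2) ∧
      D.Phi a (D.mainSt s σ l) σ ≤ 5 / 8 * D.Phi a s σ ∧
      D.Phi a (D.mainSt s σ l) (!σ) ≤ D.Phi a s (!σ) := by
  have hp := p_pos D
  have hl' := Finset.mem_filter.1 hl
  refine ⟨hl'.1, hl'.2.1, hl'.2.2, ?_, ?_⟩
  · obtain ⟨-, -, hK3, hK4⟩ := hK D σ (s.ρ ∪ l.2) l.1
    have h1 : D.Phi a (D.mainSt s σ l) σ ≤
        ∑ x ∈ D.stp σ (s.ρ ∪ l.2) l.1 (Rl D a s σ), fi D x := by
      unfold Dat.Phi
      refine Finset.sum_le_sum_of_subset_of_nonneg ?_ (fun x _ _ => (fi_pos D x).le)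
      intro x hx
      obtain ⟨hx1, hx2, hx3⟩ := Finset.mem_filter.1 hx
      simp only [Dat.mainSt, if_true] at hx1
      unfold Dat.stp at hx1 ⊢
      obtain ⟨z, hz1, hz2⟩ := Finset.mem_biUnion.1 hx1
      refine Finset.mem_biUnion.2 ⟨z, ?_, hz2⟩
      by_cases hF : Fn ((s.ρ ∪ l.2) ∪ z.2)
      · rw [if_pos hF] at hz2
        have hzx : z.2 ⊆ x.2 := by
          by_cases hc : D.chal σ z.1 l.1 (ans ((s.ρ ∪ l.2) ∪ z.2)) = true
          · rw [if_pos hc] at hz2
            exact (hK3 z x hz2).2.1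
          · rw [if_neg hc, Finset.mem_singleton] at hz2
            rw [hz2]
        refine Finset.mem_filter.2 ⟨hz1, fun f hf => hx2 f (hzx hf), fn_mono ?_ hF⟩
        intro f hf
        rcases Finset.mem_union.1 hf with hf | hf
        · exact Finset.mem_union_left _ (Finset.mem_union_left _ hf)
        · exact Finset.mem_union_right _ hf
      · rw [if_neg hF] at hz2
        exact absurd hz2 (Finset.notMem_empty _)
    have h2 := hK4 (Rl D a s σ) (fi D) (1 / (8 * (D.p : ℝ))) (by positivity)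
      (fun x => (fi_pos D x).le) (by
        intro x _ _ _ x' hx'
        have := (hK3 x x' hx').2.2
        unfold fi
        rw [this, pow_succ, mul_comm])
    have h3 : ∑ x ∈ (Rl D a s σ).filter (fun x => Fn ((s.ρ ∪ l.2) ∪ x.2) ∧
        ¬ D.chal σ x.1 l.1 (ans ((s.ρ ∪ l.2) ∪ x.2)) = true), fi D x ≤
        ∑ x ∈ (Rl D a s σ).filter (fun x => ¬ G D s σ l x), fi D x := by
      refine Finset.sum_le_sum_of_subset_of_nonneg ?_ (fun x _ _ => (fi_pos D x).le)
      intro x hx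
      obtain ⟨hx1, hx2, hx3⟩ := Finset.mem_filter.1 hx
      refine Finset.mem_filter.2 ⟨hx1, ?_⟩
      rintro (h | h)
      · exact h hx2
      · exact hx3 h
    have h4 : ∑ x ∈ (Rl D a s σ).filter (fun x => Fn ((s.ρ ∪ l.2) ∪ x.2) ∧
        D.chal σ x.1 l.1 (ans ((s.ρ ∪ l.2) ∪ x.2)) = true), fi D x ≤
        ∑ x ∈ (Rl D a s σ).filter (fun x => G D s σ l x), fi D x := by
      refine Finset.sum_le_sum_of_subset_of_nonneg ?_ (fun x _ _ => (fi_pos D x).le)
      intro x hx
      obtain ⟨hx1, hx2, hx3⟩ := Finset.mem_filter.1 hx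
      exact Finset.mem_filter.2 ⟨hx1, Or.inr hx3⟩
    have h5 : ∑ x ∈ (Rl D a s σ).filter (fun x => G D s σ l x), fi D x +
        ∑ x ∈ (Rl D a s σ).filter (fun x => ¬ G D s σ l x), fi D x = D.Phi a s σ := by
      rw [phi_eq]
      exact Finset.sum_filter_add_sum_filter_not _ _ _
    have h6 : 2 * (D.p : ℝ) * (1 / (8 * (D.p : ℝ))) = 1 / 4 := by
      field_simp
      norm_num
    rw [h6] at h2
    linarith
  · unfold Dat.Phi
    refine Finset.sum_le_sum_of_subset_of_nonneg ?_ (fun x _ _ => (fi_pos D x).le)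
    intro x hx
    obtain ⟨hx1, hx2, hx3⟩ := Finset.mem_filter.1 hx
    have hne : (!σ) ≠ σ := by cases σ <;> simp
    simp only [Dat.mainSt, if_neg hne] at hx1
    refine Finset.mem_filter.2 ⟨hx1, hx2, fn_mono ?_ hx3⟩
    intro f hf
    rcases Finset.mem_union.1 hf with hf | hf
    · exact Finset.mem_union_left _ (Finset.mem_union_left _ hf)
    · exact Finset.mem_union_right _ hf

/-- averaging for one side -/
theorem avg (D : Dat E Nd Sg W) (A B : Finset (Lf E Nd Sg)) (H : Lf E Nd Sg → Lf E Nd Sg → Prop)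
    (hB : 0 < ∑ y ∈ B, fi D y)
    (h : ∀ y ∈ B, ∑ x ∈ A.filter (fun x => H y x), fi D x < (∑ x ∈ A, fi D x) / 2) :
    ∑ y ∈ B, ∑ x ∈ A, (if H y x then fi D x * fi D y else 0) <
      (∑ x ∈ A, fi D x) * (∑ y ∈ B, fi D y) / 2 := by
  have hne : B.Nonempty := by
    by_contra hn
    rw [Finset.not_nonempty_iff_eq_empty] at hn
    rw [hn, Finset.sum_empty] at hB
    exact lt_irrefl _ hB
  have h1 : ∑ y ∈ B, ∑ x ∈ A, (if H y x then fi D x * fi D y else 0) <
      ∑ y ∈ B, (∑ x ∈ A, fi D x) / 2 * fi D y := by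
    refine Finset.sum_lt_sum_of_nonempty hne ?_
    intro y hy
    have h2 : ∑ x ∈ A, (if H y x then fi D x * fi D y else 0) =
        (∑ x ∈ A.filter (fun x => H y x), fi D x) * fi D y := by
      rw [Finset.sum_mul, Finset.sum_filter]
    rw [h2]
    exact mul_lt_mul_of_pos_right (h y hy) (fi_pos D y)
  rw [← Finset.mul_sum] at h1
  linarith

end

end PHI76

open PHI76 in
theorem phi (hK : KIDStmt) : PHIStmt := by
  intro E Nd Sg W _ _ _ D a s hpt hpf
  by_contra hcon
  have hA : ∀ y ∈ Rl D a s false,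
      ∑ x ∈ (Rl D a s true).filter (fun x => G D s true y x), fi D x <
        (∑ x ∈ Rl D a s true, fi D x) / 2 := by
    intro y hy
    by_contra hlt
    rw [not_lt, ← phi_eq] at hlt
    exact hcon ⟨true, y, one_side hK D a s true y hy hlt⟩
  have hB : ∀ x ∈ Rl D a s true,
      ∑ y ∈ (Rl D a s false).filter (fun y => G D s false x y), fi D y <
        (∑ y ∈ Rl D a s false, fi D y) / 2 := by
    intro x hx
    by_contra hlt
    rw [not_lt, ← phi_eq] at hlt
    exact hcon ⟨false, x, one_side hK D a s false x hx hlt⟩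
  have h1 := avg D (Rl D a s true) (Rl D a s false) (G D s true) hpf hA
  have h2 := avg D (Rl D a s false) (Rl D a s true) (G D s false) hpt hB
  rw [Finset.sum_comm] at h2
  have h3 : (∑ x ∈ Rl D a s true, fi D x) * (∑ y ∈ Rl D a s false, fi D y) ≤
      ∑ y ∈ Rl D a s false, ∑ x ∈ Rl D a s true,
        (if G D s true y x then fi D x * fi D y else 0) +
      ∑ y ∈ Rl D a s false, ∑ x ∈ Rl D a s true,
        (if G D s false x y then fi D y * fi D x else 0) := by
    rw [← Finset.sum_add_distrib, Finset.mul_sum]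
    refine Finset.sum_le_sum (fun y _ => ?_)
    rw [← Finset.sum_add_distrib, Finset.sum_mul]
    refine Finset.sum_le_sum (fun x _ => ?_)
    have hx := fi_pos D x
    have hy := fi_pos D y
    have hxy : 0 < fi D x * fi D y := mul_pos hx hy
    rcases hit_or D s x y with h | h
    · rw [if_pos h]
      by_cases h' : G D s false x y
      · rw [if_pos h']
        nlinarith
      · rw [if_neg h']
        linarith
    · rw [if_pos h]
      by_cases h' : G D s true y x
      · rw [if_pos h']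
        nlinarith
      · rw [if_neg h']
        nlinarith
  nlinarith

end Pool.ORB
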